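import Mathlib

/-!
# The range of `I - f` need not be closed

Negative answer to the question, and the exact class of closed sets `C` of a Banach space `Y` for
which the range is always closed when `C` is viewed inside the sup-norm product of `Y` with the line.
-/

namespace Pool.Agent.Results.MP_299699_an.NotClosed

open Metric Topology Filter

/-- `f : C → X` is nonexpansive. -/
def Nonexpansive {X : Type} [NormedAddCommGroup X] {C : Set X} (f : C → X) : Prop :=
  ∀ x u : C, ‖f x - f u‖ ≤ ‖(x : X) - (u : X)‖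

/-- The set `(I - f)(C)`. -/
def Range {X : Type} [NormedAddCommGroup X] {C : Set X} (f : C → X) : Set X :=
  {z | ∃ x : C, z = (x : X) - f x}

/-- `C` has normal structure. -/
def NormalStructure {X : Type} [NormedAddCommGroup X] [NormedSpace ℝ X] (C : Set X) : Prop :=
  ∀ K : Set X, K ⊆ C → IsClosed K → Convex ℝ K → (∃ a ∈ K, ∃ b ∈ K, a ≠ b) →
    ∃ y ∈ K, ∃ d : ℝ, d < Metric.diam K ∧ ∀ x ∈ K, ‖x - y‖ ≤ d

/-- The canonical map of `X` to its second dual is onto. -/
def Reflexive (X : Type) [NormedAddCommGroup X] [NormedSpace ℝ X] : Prop :=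
  ∀ F : StrongDual ℝ (StrongDual ℝ X), ∃ x : X, ∀ f : StrongDual ℝ X, F f = f x

/-- `C` is compact for the weak topology. -/
def WeaklyCompact {X : Type} [NormedAddCommGroup X] [NormedSpace ℝ X] (C : Set X) : Prop :=
  IsCompact ((toWeakSpace ℝ X) '' C)

/-! ### Noncompact sets carry positive 1-Lipschitz functions with infimum zero -/

theorem exists_separated {Y : Type} [NormedAddCommGroup Y] [CompleteSpace Y] {C : Set Y}
    (hC : IsClosed C) (hn : ¬ IsCompact C) :
    ∃ ε : ℝ, 0 < ε ∧ ∃ x : ℕ → Y, (∀ n, x n ∈ C) ∧ ∀ n m, n ≠ m → ε ≤ dist (x n) (x m) := by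
  have h1 : ¬ TotallyBounded C := by
    intro h
    exact hn (isCompact_iff_totallyBounded_isComplete.mpr ⟨h, hC.isComplete⟩)
  rw [Metric.totallyBounded_iff] at h1
  push Not at h1
  obtain ⟨ε, hε, h2⟩ := h1
  obtain ⟨x, hx, hx2⟩ := exists_seq_of_forall_finset_exists (fun y : Y => y ∈ C)
    (fun y z => ε ≤ dist y z) (by
      intro s _
      have h3 := h2 (s : Set Y) s.finite_toSet
      rw [Set.not_subset] at h3
      obtain ⟨y, hy, hy2⟩ := h3
      refine ⟨y, hy, fun z hz => ?_⟩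
      by_contra hcon
      push Not at hcon
      exact hy2 (Set.mem_biUnion (x := z) hz (by rw [mem_ball, dist_comm]; exact hcon)))
  refine ⟨ε, hε, x, hx, fun n m hnm => ?_⟩
  rcases lt_or_gt_of_ne hnm with h | h
  · exact hx2 n m h
  · rw [dist_comm]
    exact hx2 m n h

theorem exists_phi {Y : Type} [NormedAddCommGroup Y] [CompleteSpace Y] {C : Set Y}
    (hC : IsClosed C) (hn : ¬ IsCompact C) :
    ∃ φ : Y → ℝ, (∀ y, 0 < φ y) ∧ (∀ y z, |φ y - φ z| ≤ ‖y - z‖) ∧
      ∀ δ : ℝ, 0 < δ → ∃ y ∈ C, φ y < δ := by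
  obtain ⟨ε, hε, x, hx, hsep⟩ := exists_separated hC hn
  set A : Set (Y × ℝ) := Set.range (fun n : ℕ => (x n, (1 : ℝ) / (n + 1))) with hA
  have hAc : IsClosed A := by
    apply Metric.isClosed_of_pairwise_le_dist hε
    rintro _ ⟨n, rfl⟩ _ ⟨m, rfl⟩ hne
    have hnm : n ≠ m := by
      rintro rfl
      exact hne rfl
    calc ε ≤ dist (x n) (x m) := hsep n m hnm
      _ ≤ _ := by
        rw [Prod.dist_eq]
        exact le_max_left _ _
  have hAn : A.Nonempty := ⟨_, ⟨0, rfl⟩⟩
  refine ⟨fun y => infDist ((y, 0) : Y × ℝ) A, ?_, ?_, ?_⟩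
  · intro y
    rw [← hAc.notMem_iff_infDist_pos hAn]
    rintro ⟨n, hn⟩
    have h2 := congrArg Prod.snd hn
    have : (0 : ℝ) < 1 / ((n : ℝ) + 1) := by positivity
    simp only at h2
    linarith
  · intro y z
    have := (lipschitz_infDist_pt A).dist_le_mul ((y, 0) : Y × ℝ) ((z, 0) : Y × ℝ)
    rw [Real.dist_eq, NNReal.coe_one, one_mul, Prod.dist_eq] at this
    rw [← dist_eq_norm]
    simpa using this
  · intro δ hδ
    obtain ⟨n, hn⟩ := exists_nat_one_div_lt hδ
    refine ⟨x n, hx n, lt_of_le_of_lt ?_ hn⟩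
    have hmem : ((x n, (1 : ℝ) / ((n : ℝ) + 1)) : Y × ℝ) ∈ A := ⟨n, rfl⟩
    refine (infDist_le_dist_of_mem hmem).trans ?_
    rw [Prod.dist_eq]
    simp only [dist_self]
    have : (0 : ℝ) < 1 / ((n : ℝ) + 1) := by positivity
    rw [Real.dist_eq, zero_sub, abs_neg, abs_of_pos this]
    exact max_le this.le le_rfl

/-- The copy of `C` in the sup-norm product with the line. -/
def Lift {Y : Type} (C : Set Y) : Set (Y × ℝ) := {p | p.1 ∈ C ∧ p.2 = 0}

theorem exists_f {Y : Type} [NormedAddCommGroup Y] [CompleteSpace Y] {C : Set Y}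
    (hC : IsClosed C) (hn : ¬ IsCompact C) :
    ∃ f : Lift C → Y × ℝ, Nonexpansive f ∧ (∀ x : Lift C, f x ≠ x) ∧
      (∀ ε : ℝ, 0 < ε → ∃ x : Lift C, ‖(x : Y × ℝ) - f x‖ < ε) := by
  obtain ⟨φ, hpos, hlip, hinf⟩ := exists_phi hC hn
  refine ⟨fun p => (p.1.1, φ p.1.1), ?_, ?_, ?_⟩
  · intro p q
    rw [Prod.norm_def, Prod.norm_def]
    simp only [Prod.fst_sub, Prod.snd_sub]
    apply max_le (le_max_left _ _)
    rw [Real.norm_eq_abs]
    exact (hlip _ _).trans (le_max_left _ _)
  · intro p hp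
    have h2 := congrArg Prod.snd hp
    have h3 : (p : Y × ℝ).2 = 0 := p.2.2
    have h4 := hpos (p : Y × ℝ).1
    simp only at h2
    rw [h3] at h2
    linarith
  · intro ε hε
    obtain ⟨y, hy, hy2⟩ := hinf ε hε
    refine ⟨⟨(y, 0), ⟨hy, rfl⟩⟩, ?_⟩
    simp only [Prod.mk_sub_mk, sub_self, zero_sub, Prod.norm_def, norm_zero, norm_neg,
      Real.norm_eq_abs, abs_of_pos (hpos y)]
    exact max_lt hε hy2

theorem not_closed {X : Type} [NormedAddCommGroup X] {C : Set X} {f : C → X}
    (h1 : ∀ x : C, f x ≠ x) (h2 : ∀ ε : ℝ, 0 < ε → ∃ x : C, ‖(x : X) - f x‖ < ε) :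
    ¬ IsClosed (Range f) := by
  intro hcl
  have h3 : (0 : X) ∈ closure (Range f) := by
    rw [Metric.mem_closure_iff]
    intro ε hε
    obtain ⟨x, hx⟩ := h2 ε hε
    exact ⟨(x : X) - f x, ⟨x, rfl⟩, by rw [dist_eq_norm, zero_sub, norm_neg]; exact hx⟩
  rw [hcl.closure_eq] at h3
  obtain ⟨x, hx⟩ := h3
  exact h1 x (sub_eq_zero.mp hx.symm).symm

theorem closed_of_compact {X : Type} [NormedAddCommGroup X] {C : Set X} (hC : IsCompact C)
    (f : C → X) (hf : Nonexpansive f) : IsClosed (Range f) := by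
  have h1 : Continuous f := by
    rw [Metric.continuous_iff]
    intro b ε hε
    refine ⟨ε, hε, fun a ha => ?_⟩
    rw [dist_eq_norm]
    refine lt_of_le_of_lt (hf a b) ?_
    rw [← dist_eq_norm]
    exact ha
  have h2 : Continuous (fun x : C => (x : X) - f x) := continuous_subtype_val.sub h1
  have : CompactSpace C := isCompact_iff_compactSpace.mp hC
  have h3 : Range f = Set.range (fun x : C => (x : X) - f x) := by
    ext z
    constructor
    · rintro ⟨x, hx⟩
      exact ⟨x, hx.symm⟩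
    · rintro ⟨x, hx⟩
      exact ⟨x, hx.symm⟩
  rw [h3]
  exact (isCompact_range h2).isClosed

theorem lift_compact {Y : Type} [NormedAddCommGroup Y] {C : Set Y} (hC : IsCompact C) :
    IsCompact (Lift C) := by
  have : Lift C = C ×ˢ {(0 : ℝ)} := by
    ext p
    simp [Lift]
  rw [this]
  exact hC.prod isCompact_singleton

/-! ### Hilbert space plus a line -/

/-- The real Hilbert space of square summable sequences. -/
abbrev H : Type := lp (fun _ : ℕ => ℝ) 2

theorem reflexive_H : Reflexive H := by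
  intro F
  let ψ : StrongDual ℝ H := LinearMap.mkContinuous
    { toFun := fun h => F (InnerProductSpace.toDual ℝ H h)
      map_add' := fun h k => by rw [map_add, map_add]
      map_smul' := fun c h => by
        rw [LinearIsometryEquiv.map_smulₛₗ]
        simp } ‖F‖ (fun h => by
          refine (F.le_opNorm _).trans ?_
          rw [LinearIsometryEquiv.norm_map])
  refine ⟨(InnerProductSpace.toDual ℝ H).symm ψ, ?_⟩
  intro f
  obtain ⟨g, rfl⟩ := (InnerProductSpace.toDual ℝ H).surjective f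
  rw [InnerProductSpace.toDual_apply_apply, real_inner_comm, InnerProductSpace.toDual_symm_apply]
  rfl

theorem reflexive_prod {Y : Type} [NormedAddCommGroup Y] [NormedSpace ℝ Y] (hY : Reflexive Y) :
    Reflexive (Y × ℝ) := by
  intro F
  let ψ : StrongDual ℝ (StrongDual ℝ Y) :=
    F.comp ((ContinuousLinearMap.compL ℝ (Y × ℝ) Y ℝ).flip (ContinuousLinearMap.fst ℝ Y ℝ))
  obtain ⟨h, hh⟩ := hY ψ
  let t : ℝ := F (ContinuousLinearMap.snd ℝ Y ℝ)
  refine ⟨(h, t), ?_⟩
  intro f
  have hf : f = (f.comp (ContinuousLinearMap.inl ℝ Y ℝ)).comp (ContinuousLinearMap.fst ℝ Y ℝ)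
      + (f (0, 1)) • (ContinuousLinearMap.snd ℝ Y ℝ) := by
    ext
    · simp
    · have : f (0, 0) = 0 := map_zero f
      simp [this]
  have h1 : F ((f.comp (ContinuousLinearMap.inl ℝ Y ℝ)).comp (ContinuousLinearMap.fst ℝ Y ℝ))
      = f (h, 0) := hh (f.comp (ContinuousLinearMap.inl ℝ Y ℝ))
  have h2 : f (h, t) = f (h, 0) + t * f (0, 1) := by
    have : ((h, t) : Y × ℝ) = (h, 0) + t • (0, 1) := by simp
    rw [this, map_add, map_smul, smul_eq_mul]
  rw [h2]
  conv_lhs => rw [hf]
  rw [map_add, map_smul, h1, smul_eq_mul]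
  ring

/-- In a reflexive space a closed bounded convex set is weakly compact. -/
theorem weaklyCompact_of {X : Type} [NormedAddCommGroup X] [NormedSpace ℝ X] (hX : Reflexive X)
    {C : Set X} (h1 : IsClosed C) (h2 : Convex ℝ C) (h3 : Bornology.IsBounded C) :
    WeaklyCompact C := by
  have hcl : closure ((toWeakSpace ℝ X) '' C) = (toWeakSpace ℝ X) '' C := by
    rw [← h2.toWeakSpace_closure ℝ, h1.closure_eq]
  unfold WeaklyCompact
  rw [← hcl]
  apply NormedSpace.isCompact_closure_of_isBounded ℝ X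
  · rw [Set.preimage_image_eq _ (toWeakSpace ℝ X).injective]
    exact h3
  · intro z _
    obtain ⟨x, hx⟩ := hX (WeakDual.toStrongDual z)
    refine ⟨toWeakSpace ℝ X x, ?_⟩
    apply WeakDual.toStrongDual.injective
    ext f
    rw [hx f]
    rfl

/-- The closed unit ball of the Hilbert space. -/
def B : Set H := closedBall 0 1

theorem isClosed_lift {Y : Type} [NormedAddCommGroup Y] {C : Set Y} (hC : IsClosed C) :
    IsClosed (Lift C) := by
  have : Lift C = C ×ˢ {(0 : ℝ)} := by
    ext p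
    simp [Lift]
  rw [this]
  exact hC.prod isClosed_singleton

theorem convex_lift {Y : Type} [NormedAddCommGroup Y] [NormedSpace ℝ Y] {C : Set Y}
    (hC : Convex ℝ C) : Convex ℝ (Lift C) := by
  have : Lift C = C ×ˢ {(0 : ℝ)} := by
    ext p
    simp [Lift]
  rw [this]
  exact hC.prod (convex_singleton _)

theorem bounded_lift {Y : Type} [NormedAddCommGroup Y] {C : Set Y}
    (hC : Bornology.IsBounded C) : Bornology.IsBounded (Lift C) := by
  have : Lift C = C ×ˢ {(0 : ℝ)} := by
    ext p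
    simp [Lift]
  rw [this]
  exact hC.prod Bornology.isBounded_singleton

theorem normal_lift {C : Set H} (hC : Bornology.IsBounded C) : NormalStructure (Lift C) := by
  intro K hK _ hconv hab
  obtain ⟨a, ha, b, hb, hne⟩ := hab
  have hbdd : Bornology.IsBounded K := (bounded_lift hC).subset hK
  have hdist : ∀ p ∈ K, ∀ q ∈ K, dist p q = ‖p.1 - q.1‖ := by
    intro p hp q hq
    rw [Prod.dist_eq, (hK hp).2, (hK hq).2, dist_self, dist_eq_norm]
    exact max_eq_left (norm_nonneg _)
  have hpos : 0 < ‖a.1 - b.1‖ := by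
    rw [← hdist a ha b hb]
    exact dist_pos.mpr hne
  have hD : ‖a.1 - b.1‖ ≤ diam K := by
    rw [← hdist a ha b hb]
    exact dist_le_diam_of_mem hbdd ha hb
  have hDpos : 0 < diam K := hpos.trans_le hD
  have hm : (1 / 2 : ℝ) • a + (1 / 2 : ℝ) • b ∈ K :=
    hconv ha hb (by norm_num) (by norm_num) (by norm_num)
  refine ⟨(1 / 2 : ℝ) • a + (1 / 2 : ℝ) • b, hm,
    Real.sqrt (diam K ^ 2 - ‖a.1 - b.1‖ ^ 2 / 4), ?_, ?_⟩
  · rw [Real.sqrt_lt' hDpos]
    have : 0 < ‖a.1 - b.1‖ ^ 2 := by positivity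
    linarith
  · intro y hy
    rw [← dist_eq_norm, dist_comm, hdist _ hm y hy]
    apply Real.le_sqrt_of_sq_le
    have e1 : ‖a.1 - y.1‖ ≤ diam K := by
      rw [← hdist a ha y hy]
      exact dist_le_diam_of_mem hbdd ha hy
    have e2 : ‖b.1 - y.1‖ ≤ diam K := by
      rw [← hdist b hb y hy]
      exact dist_le_diam_of_mem hbdd hb hy
    have par := parallelogram_law_with_norm ℝ (a.1 - y.1) (b.1 - y.1)
    have s1 : (a.1 - y.1) + (b.1 - y.1) =
        (2 : ℝ) • (((1 / 2 : ℝ) • a + (1 / 2 : ℝ) • b).1 - y.1) := by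
      simp only [Prod.fst_add, Prod.smul_fst]
      module
    have s2 : (a.1 - y.1) - (b.1 - y.1) = a.1 - b.1 := by abel
    rw [s1, s2, norm_smul] at par
    have : ‖(2 : ℝ)‖ = 2 := by norm_num
    rw [this] at par
    have q1 : ‖a.1 - y.1‖ * ‖a.1 - y.1‖ ≤ diam K * diam K := by gcongr
    have q2 : ‖b.1 - y.1‖ * ‖b.1 - y.1‖ ≤ diam K * diam K := by gcongr
    nlinarith

theorem norm_single_sub {n m : ℕ} (h : n ≠ m) :
    1 ≤ ‖(lp.single 2 n (1 : ℝ) : H) - lp.single 2 m (1 : ℝ)‖ := by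
  have h0 : ∀ k : ℕ, ‖(lp.single 2 k (1 : ℝ) : H)‖ = 1 := by
    intro k
    rw [lp.norm_single (by norm_num)]
    simp
  have h1 : ‖(lp.single 2 n (1 : ℝ) : H) - lp.single 2 m (1 : ℝ)‖ ^ 2 = 2 := by
    rw [@norm_sub_sq_real, h0, h0, lp.inner_single_left]
    simp [lp.single_apply, h]
    norm_num
  nlinarith [norm_nonneg ((lp.single 2 n (1 : ℝ) : H) - lp.single 2 m (1 : ℝ))]

theorem B_not_compact : ¬ IsCompact B := by
  intro h
  have h1 := h.isSeqCompact (x := fun n : ℕ => (lp.single 2 n (1 : ℝ) : H)) (by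
    intro n
    rw [B, mem_closedBall_zero_iff, lp.norm_single (by norm_num)]
    simp)
  obtain ⟨a, _, φ, hφ, hlim⟩ := h1
  have h2 := hlim.cauchySeq
  rw [Metric.cauchySeq_iff'] at h2
  obtain ⟨N, hN⟩ := h2 1 one_pos
  have h3 := hN (N + 1) (by omega)
  rw [dist_eq_norm] at h3
  have h4 : φ (N + 1) ≠ φ N := (hφ (by omega)).ne'
  have h5 := norm_single_sub h4
  simp only [Function.comp] at h3
  linarith

/-- **Full negative answer.** (1) The negated form of the question, in the sup-norm product of the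
Hilbert space with the line; the map has approximate fixed points and no fixed point. (2) For a
closed set `C` of a Banach space `Y`, every nonexpansive map of the copy of `C` in the sup-norm
product `Y × ℝ` to `Y × ℝ` has a closed range of `I - f` if and only if `C` is norm compact. -/
theorem result :
    (Reflexive (H × ℝ) ∧ ∃ (C : Set (H × ℝ)) (f : C → H × ℝ),
      C.Nonempty ∧ IsClosed C ∧ Convex ℝ C ∧ WeaklyCompact C ∧ NormalStructure C ∧
        Nonexpansive f ∧ (∀ x : C, f x ≠ x) ∧ (∀ ε : ℝ, 0 < ε → ∃ x : C, ‖(x : H × ℝ) - f x‖ < ε) ∧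
        ¬ IsClosed (Range f)) ∧
    (∀ (Y : Type) [NormedAddCommGroup Y] [NormedSpace ℝ Y] [CompleteSpace Y] (C : Set Y),
      IsClosed C →
      ((∀ f : Lift C → Y × ℝ, Nonexpansive f → IsClosed (Range f)) ↔ IsCompact C)) := by
  refine ⟨⟨reflexive_prod reflexive_H, ?_⟩, ?_⟩
  · have hB1 : IsClosed B := isClosed_closedBall
    have hB2 : Convex ℝ B := convex_closedBall _ _
    have hB3 : Bornology.IsBounded B := isBounded_closedBall
    obtain ⟨f, hf, hf2, hf3⟩ := exists_f hB1 B_not_compact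
    exact ⟨Lift B, f, ⟨(0, 0), by simp [Lift, B]⟩, isClosed_lift hB1,
      convex_lift hB2, weaklyCompact_of (reflexive_prod reflexive_H) (isClosed_lift hB1)
        (convex_lift hB2) (bounded_lift hB3), normal_lift hB3, hf, hf2, hf3,
        not_closed hf2 hf3⟩
  · intro Y _ _ _ C hC
    constructor
    · intro h
      by_contra hn
      obtain ⟨f, hf, hf2, hf3⟩ := exists_f hC hn
      exact not_closed hf2 hf3 (h f hf)
    · intro h f hf
      exact closed_of_compact (lift_compact h) f hf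

end Pool.Agent.Results.MP_299699_an.NotClosed
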